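import Pool.Agent.H851Z.LR.KTriv
import Pool.Agent.H624Z.OW.Defs

set_option autoImplicit false

/-!
Sets that are low for Oberwolfach randomness are K-trivial.
-/

namespace Pool.Agent.H101Z.OW

open Pool.Agent.Helper227 Pool.Agent.H851Z.LR Pool.Agent.H624Z.OW MeasureTheory Encodable
open scoped ENNReal

theorem compIn_of_computable (A : ℕ → Bool) {f : ℕ → ℕ} (hf : Computable f) : CompIn A f :=
  Partrec.turingReducible (f := fun n => Part.some (f n)) hf.partrec

/-- Oberwolfach random sets are Martin-Lof random, relative to any oracle. -/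
theorem mlr_of_ow {A Z : ℕ → Bool} (h : OWRandomIn A Z) : MLR A Z := by
  intro U hU hZ
  obtain ⟨E, hE, mE, eE⟩ := hU.exists_E
  let E' : List Bool × ℕ × List Bool → Prop := fun x => ∀ i < x.2.1 + 1, E (x.1, i, x.2.2)
  have hE' : S1 E' := by
    refine S1.all_lt (α := List Bool × ℕ × List Bool) (f := fun x => x.2.1 + 1)
      (p := fun x i => E (x.1, i, x.2.2)) ?_
      (Primrec.succ.comp (Primrec.fst.comp Primrec.snd))
    exact hE.comp ((Primrec.fst.comp Primrec.fst).pair (Primrec.snd.pair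
      (Primrec.snd.comp (Primrec.snd.comp Primrec.fst))))
  have hm : ∀ n, lam (UE E' A n) ≤ (1 / 2) ^ n := by
    intro n
    refine le_trans (measure_mono ?_) (hU.2 n)
    rintro X ⟨s, t, hX⟩
    rw [eE]
    exact ⟨s, t, hX n (Nat.lt_succ_self n)⟩
  have hmono : Monotone fun s : ℕ => ((s : ℚ) - ((0 : ℕ) : ℚ)) / ((s : ℚ) + 1) := by
    intro a b hab
    have h1 : (a : ℚ) ≤ b := by exact_mod_cast hab
    simp only [Nat.cast_zero, sub_zero]
    rw [div_le_div_iff₀ (by positivity) (by positivity)]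
    nlinarith
  refine h (UE E' A) ⟨(isMLTest_of_E hE' hm).1, ?_,
    fun s => ((s : ℚ) - ((0 : ℕ) : ℚ)) / ((s : ℚ) + 1), 1,
    ⟨id, fun _ => 0, id, compIn_of_computable A Computable.id,
      compIn_of_computable A (Computable.const 0), compIn_of_computable A Computable.id,
      fun _ => rfl⟩, hmono, ?_, 1, ?_⟩ ?_
  · rintro n X ⟨s, t, hX⟩
    exact ⟨s, t, fun i hi => hX i (Nat.lt_succ_of_lt hi)⟩
  · refine isLUB_of_tendsto_atTop (fun a b hab => by exact_mod_cast hmono hab) ?_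
    have := tendsto_natCast_div_add_atTop (𝕜 := ℝ) 1
    simpa using this
  · intro m
    have h1 := ENNReal.toReal_mono (by simp) (hm m)
    rw [real_half_pow] at h1
    refine h1.trans ?_
    have h2 : (m : ℝ) + 1 ≤ 2 ^ m := by exact_mod_cast Nat.lt_two_pow_self
    have h3 : (1 : ℝ) * (1 - ((((m : ℚ) - ((0 : ℕ) : ℚ)) / ((m : ℚ) + 1) : ℚ) : ℝ)) =
        1 / ((m : ℝ) + 1) := by
      push_cast
      field_simp
      ring
    rw [h3, one_div_pow]
    exact one_div_le_one_div_of_le (by positivity) h2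
  · rw [Set.mem_iInter] at hZ ⊢
    have key : ∀ n, ∃ s t, ∀ i < n, E (pre A s, i, pre Z t) := by
      intro n
      induction n with
      | zero => exact ⟨0, 0, fun i hi => absurd hi (Nat.not_lt_zero i)⟩
      | succ n ih =>
        obtain ⟨s, t, h1⟩ := ih
        have h2 := hZ n
        rw [eE] at h2
        obtain ⟨s', t', h2⟩ := h2
        refine ⟨max s s', max t t', fun i hi => ?_⟩
        rcases Nat.lt_succ_iff_lt_or_eq.1 hi with h3 | rfl
        · exact mE _ _ _ _ _ (pre_prefix A (le_max_left _ _)) (pre_prefix Z (le_max_left _ _))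
            (h1 i h3)
        · exact mE _ _ _ _ _ (pre_prefix A (le_max_right _ _)) (pre_prefix Z (le_max_right _ _)) h2
    intro n
    exact key (n + 1)

/-- c.e. open sets -/
def CEO (V : Set (ℕ → Bool)) : Prop :=
  ∃ E : List Bool × ℕ × List Bool → Prop, S1 E ∧ Mono3 E ∧ V = UE E zero 1

theorem ceo_empty : CEO ∅ := by
  refine ⟨fun _ => False, S1.of_prim (PP.const False), fun _ _ _ _ _ _ _ h => h, ?_⟩
  ext X
  simp [UE]

theorem ceo_union {V : Set (ℕ → Bool)} (hV : CEO V) {E : List Bool × ℕ × List Bool → Prop}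
    (hE : S1 E) (m : ℕ) : CEO (V ∪ UE E zero m) := by
  obtain ⟨E1, h1, m1, rfl⟩ := hV
  obtain ⟨E2, h2, m2, e2⟩ := exists_mono3 hE
  refine ⟨fun x => E1 (x.1, 1, x.2.2) ∨ E2 (x.1, m, x.2.2), S1.or (h1.comp ?_) (h2.comp ?_), ?_, ?_⟩
  · exact Primrec.fst.pair ((Primrec.const 1).pair (Primrec.snd.comp Primrec.snd))
  · exact Primrec.fst.pair ((Primrec.const m).pair (Primrec.snd.comp Primrec.snd))
  · intro α α' n ζ ζ' ha hz h
    exact h.imp (m1 _ _ _ _ _ ha hz) (m2 _ _ _ _ _ ha hz)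
  · rw [← e2]
    ext X
    constructor
    · rintro (⟨s, t, h⟩ | ⟨s, t, h⟩)
      · exact ⟨s, t, Or.inl h⟩
      · exact ⟨s, t, Or.inr h⟩
    · rintro ⟨s, t, h | h⟩
      · exact Or.inl ⟨s, t, h⟩
      · exact Or.inr ⟨s, t, h⟩

/-- the predicate with code `c` -/
def Ec (c : Nat.Partrec.Code) (x : List Bool × ℕ × List Bool) : Prop := (c.eval (encode x)).Dom

theorem s1_Ec (c : Nat.Partrec.Code) : S1 (Ec c) :=
  S1.of_re (Partrec.dom_re (Nat.Partrec.Code.eval_part.comp (Computable.const c) Computable.encode))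

theorem exists_Ec {G : ℕ → Set (ℕ → Bool)} (hG : IsLCTest zero G) :
    ∃ c, G = UE (Ec c) zero := by
  obtain ⟨⟨W, hW, hU⟩, -⟩ := hG
  obtain ⟨E0, hE0, -, eE0⟩ := ceIn_iff.1 hW
  have hE : S1 fun x : List Bool × ℕ × List Bool => E0 (x.1, Nat.pair x.2.1 (encode x.2.2)) :=
    hE0.comp (Primrec.fst.pair (Primrec₂.natPair.comp (Primrec.fst.comp Primrec.snd)
      (Primrec.encode.comp (Primrec.snd.comp Primrec.snd))))
  obtain ⟨c, hc⟩ := Nat.Partrec.Code.exists_code.1 hE.re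
  have he : ∀ x, Ec c x ↔ E0 (x.1, Nat.pair x.2.1 (encode x.2.2)) := by
    intro x
    rw [Ec, hc]
    simp [Part.assert]
  refine ⟨c, funext fun n => ?_⟩
  rw [hU]
  ext X
  simp only [UE, Set.mem_ofPred_eq, Set.mem_iUnion, exists_prop, eE0, he]
  constructor
  · rintro ⟨σ, ⟨s, hs⟩, hX⟩
    rw [mem_cyl_iff] at hX
    exact ⟨s, σ.length, by rw [hX]; exact hs⟩
  · rintro ⟨s, t, h⟩
    exact ⟨pre X t, ⟨s, h⟩, mem_cyl_pre _ _⟩

theorem small_of_lc {A : ℕ → Bool} {G : ℕ → Set (ℕ → Bool)} (hG : IsLCTest A G) {e : ℝ≥0∞}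
    (he : e ≠ 0) (he' : e ≠ ⊤) : ∃ m, lam (G m) < e := by
  obtain ⟨-, -, β, b, -, -, hb, C, hC⟩ := hG
  have h0 : 0 < e.toReal := ENNReal.toReal_pos he he'
  have h1 : 0 < |C| + 1 := by positivity
  obtain ⟨_, ⟨m, rfl⟩, hm⟩ := (lt_isLUB_iff hb).1
    (show b - e.toReal / (|C| + 1) < b by linarith [div_pos h0 h1])
  refine ⟨m, (ENNReal.toReal_lt_toReal (measure_ne_top _ _) he').1 ?_⟩
  have h2 : 0 ≤ b - (β m : ℝ) := sub_nonneg.2 (hb.1 ⟨m, rfl⟩)
  have h3 : (b - (β m : ℝ)) * (|C| + 1) < e.toReal := by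
    rw [← lt_div_iff₀ h1]
    simp only at hm
    linarith
  have h4 := mul_le_mul_of_nonneg_right (le_abs_self C) h2
  have h5 := hC m
  nlinarith

variable {β : Type*} [Primcodable β]

theorem exists_rhoOW {D : ℕ → Bool} (hLR : ∀ X, OWRandomIn zero X → MLR D X)
    {g : β → ℕ} (hg : Primrec g) {ES : List Bool × β → Prop} (hES : S1 ES)
    (hw : ∀ F : Finset β, (∀ x ∈ F, ∃ s, ES (pre D s, x)) → ∑ x ∈ F, (1 / 2 : ℝ≥0∞) ^ (g x) ≤ 1) :
    ∃ ρ i V, CEO V ∧ lam (cyl ρ \ V) ≠ 0 ∧ lam ((cyl ρ ∩ UE (EVb g ES) D i) \ V) = 0 := by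
  by_contra hneg
  push Not at hneg
  have htest : IsMLTest D (UE (EVb g ES) D) :=
    isMLTest_of_E (s1_EVb hg hES) (lam_UE_EVb_le g ES D hw)
  have hstep : ∀ (V : Set (ℕ → Bool)) (ρ : List Bool) (i : ℕ), CEO V → lam (cyl ρ \ V) ≠ 0 →
      ∃ ρ', ρ <+: ρ' ∧ i + 1 ≤ ρ'.length ∧ cyl ρ' ⊆ UE (EVb g ES) D i ∧ lam (cyl ρ' \ V) ≠ 0 := by
    intro V ρ i hV hρ
    by_contra hc
    push Not at hc
    apply hneg ρ i V hV hρ
    have hsub : (cyl ρ ∩ UE (EVb g ES) D i) \ V ⊆ ⋃ ρ' : List Bool, ⋃ _ : ρ <+: ρ' ∧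
        i + 1 ≤ ρ'.length ∧ cyl ρ' ⊆ UE (EVb g ES) D i, cyl ρ' \ V := by
      rintro Z ⟨⟨h1, s, t, h2⟩, h3⟩
      obtain ⟨N, hN⟩ : ∃ N, N = max (max t ρ.length) (i + 1) := ⟨_, rfl⟩
      simp only [Set.mem_iUnion, exists_prop]
      refine ⟨pre Z N, ⟨?_, by simp; omega, ?_⟩, mem_cyl_pre _ _, h3⟩
      · rw [mem_cyl_iff] at h1
        rw [← h1]
        exact pre_prefix Z (by omega)
      · intro Z' hZ'
        rw [mem_cyl_iff, length_pre] at hZ'
        refine ⟨s, t, ?_⟩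
        have : pre Z' t = pre Z t := by
          rw [← take_pre Z' N t (by omega), hZ', take_pre _ _ _ (by omega)]
        rw [this]
        exact h2
    refine le_antisymm (le_trans (measure_mono hsub) ?_) (bot_le)
    rw [nonpos_iff_eq_zero, measure_iUnion_null_iff]
    intro ρ'
    rw [measure_iUnion_null_iff]
    intro h
    exact hc ρ' h.1 h.2.1 h.2.2
  have hstep2 : ∀ (p : List Bool × Set (ℕ → Bool)) (n : ℕ), CEO p.2 ∧ lam (cyl p.1 \ p.2) ≠ 0 →
      ∃ p' : List Bool × Set (ℕ → Bool), p.1 <+: p'.1 ∧ n + 1 ≤ p'.1.length ∧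
        cyl p'.1 ⊆ UE (EVb g ES) D n ∧ p.2 ⊆ p'.2 ∧ (CEO p'.2 ∧ lam (cyl p'.1 \ p'.2) ≠ 0) ∧
        (IsLCTest zero (UE (Ec (Denumerable.ofNat _ n)) zero) →
          ∃ m, UE (Ec (Denumerable.ofNat _ n)) zero m ⊆ p'.2) := by
    rintro ⟨ρ, V⟩ n ⟨hV, hρ⟩
    by_cases hT : IsLCTest zero (UE (Ec (Denumerable.ofNat _ n)) zero)
    · obtain ⟨m, hm⟩ := small_of_lc hT hρ (measure_ne_top _ _)
      have hV' := ceo_union hV (s1_Ec (Denumerable.ofNat _ n)) m
      have hρ' : lam (cyl ρ \ (V ∪ UE (Ec (Denumerable.ofNat _ n)) zero m)) ≠ 0 := by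
        intro hz
        have h1 : cyl ρ \ V ⊆ (cyl ρ \ (V ∪ UE (Ec (Denumerable.ofNat _ n)) zero m)) ∪
            UE (Ec (Denumerable.ofNat _ n)) zero m := by
          intro X hX
          by_cases h : X ∈ UE (Ec (Denumerable.ofNat _ n)) zero m
          · exact Or.inr h
          · exact Or.inl ⟨hX.1, fun h' => h'.elim hX.2 h⟩
        have h2 := (measure_mono (μ := lam) h1).trans (measure_union_le _ _)
        rw [hz, zero_add] at h2
        exact absurd hm (not_lt.2 h2)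
      obtain ⟨ρ', h1, h2, h3, h4⟩ := hstep _ ρ n hV' hρ'
      exact ⟨(ρ', _), h1, h2, h3, Set.subset_union_left, ⟨hV', h4⟩,
        fun _ => ⟨m, Set.subset_union_right⟩⟩
    · obtain ⟨ρ', h1, h2, h3, h4⟩ := hstep V ρ n hV hρ
      exact ⟨(ρ', V), h1, h2, h3, Set.Subset.rfl, ⟨hV, h4⟩, fun h => absurd h hT⟩
  choose! f hf using hstep2
  let s : ℕ → List Bool × Set (ℕ → Bool) := fun n => Nat.rec ([], ∅) (fun i q => f q i) n
  have hs : ∀ n, s (n + 1) = f (s n) n := fun n => rfl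
  have hpos : ∀ n, CEO (s n).2 ∧ lam (cyl (s n).1 \ (s n).2) ≠ 0 := by
    intro n
    induction n with
    | zero =>
      refine ⟨ceo_empty, ?_⟩
      show lam (cyl [] \ ∅) ≠ 0
      rw [Set.sdiff_empty, lam_cyl]
      simp
    | succ n ih =>
      rw [hs]
      exact (hf (s n) n ih).2.2.2.2.1
  have hl : ∀ n, n ≤ (s n).1.length := by
    intro n
    cases n with
    | zero => exact Nat.zero_le _
    | succ n => rw [hs]; exact (hf (s n) n (hpos n)).2.1
  have hVm : Monotone fun n => (s n).2 :=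
    monotone_nat_of_le_succ fun n => by
      show (s n).2 ⊆ (s (n + 1)).2
      rw [hs]; exact (hf (s n) n (hpos n)).2.2.2.1
  obtain ⟨Z, hZ⟩ := exists_limit (fun n => (s n).1)
    (fun n => by
      show (s n).1 <+: (s (n + 1)).1
      rw [hs]; exact (hf (s n) n (hpos n)).1) hl
  have hZc : ∀ n, Z ∈ cyl (s n).1 := fun n => by rw [mem_cyl_iff]; exact hZ n
  have hZV : ∀ n, Z ∉ (s n).2 := by
    intro n hn
    obtain ⟨E, -, mE, eE⟩ := (hpos n).1
    rw [eE] at hn
    obtain ⟨a, t, h⟩ := hn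
    apply (hpos (max n t)).2
    have hsub : cyl (s (max n t)).1 ⊆ (s (max n t)).2 := by
      intro Z' hZ'
      refine hVm (le_max_left n t) ?_
      show Z' ∈ (s n).2
      rw [eE]
      refine ⟨a, (s (max n t)).1.length, ?_⟩
      rw [mem_cyl_iff] at hZ'
      rw [hZ']
      refine mE _ _ _ _ _ (List.prefix_refl _) ?_ h
      rw [← hZ (max n t)]
      exact pre_prefix Z (le_trans (le_max_right n t) (hl _))
    rw [Set.sdiff_eq_empty.2 hsub, measure_empty]
  have hZO : OWRandomIn zero Z := by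
    intro G hG hZG
    obtain ⟨c, rfl⟩ := exists_Ec hG
    have h1 := (hf (s (encode c)) (encode c) (hpos _)).2.2.2.2.2
    rw [Denumerable.ofNat_encode] at h1
    obtain ⟨m, hm⟩ := h1 hG
    rw [← hs] at hm
    exact hZV (encode c + 1) (hm (Set.mem_iInter.1 hZG m))
  apply hLR Z hZO _ htest
  rw [Set.mem_iInter]
  intro i
  have := (hf (s i) i (hpos i)).2.2.1
  rw [← hs] at this
  exact this (hZc (i + 1))

theorem coverOW {D : ℕ → Bool} (hLR : ∀ X, OWRandomIn zero X → MLR D X) {g : β → ℕ}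
    (hg : Primrec g) {ES : List Bool × β → Prop} (hES : S1 ES)
    (hw : ∀ F : Finset β, (∀ x ∈ F, ∃ s, ES (pre D s, x)) → ∑ x ∈ F, (1 / 2 : ℝ≥0∞) ^ (g x) ≤ 1) :
    ∃ R : List Bool × β → Prop, S1 R ∧ (∀ x, (∃ s, ES (pre D s, x)) → ∃ s, R (pre zero s, x)) ∧
      ∃ b : ℕ, ∀ F : Finset β, (∀ x ∈ F, ∃ s, R (pre zero s, x)) →
        ∑ x ∈ F, (1 / 2 : ℝ≥0∞) ^ (g x) ≤ b := by
  classical
  obtain ⟨ρ, i, _, ⟨EU, hE, mEU, rfl⟩, hρ, hi⟩ := exists_rhoOW hLR hg hES hw
  obtain ⟨lm, hlm⟩ : ∃ lm : ℝ, lm = lam.real (cyl ρ \ UE EU zero 1) := ⟨_, rfl⟩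
  have hlm0 : 0 < lm := by
    rw [hlm, measureReal_def]
    exact ENNReal.toReal_pos hρ (measure_ne_top _ _)
  obtain ⟨d, hd⟩ : ∃ d : ℕ, (1 / 2 : ℝ) ^ d < lm / 4 :=
    exists_pow_lt_of_lt_one (by positivity) (by norm_num)
  let A : List Bool → β → Set (ℕ → Bool) := fun ζ x => {Z | ∃ t, RP EU g ρ i (ζ, x) (pre Z t)}
  have hAeq : ∀ ζ x, A ζ x = {Z | ∃ t, EU (ζ, 1, pre Z t)} ∪
      (cyl ρ ∩ Blk (Nat.pair (encode x) i) (g x + i))ᶜ := fun ζ x => RP_set EU g ρ i ζ x
  have hAm : ∀ ζ x, MeasurableSet (A ζ x) := fun ζ x =>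
    measurableSet_open (fun _ τ => RP EU g ρ i (ζ, x) τ)
  have hS1 : S1 fun x : List Bool × β => ((2 ^ (encode x.2 + d) - 1 : ℕ) : ℝ≥0∞) /
      ((2 ^ (encode x.2 + d) : ℕ) : ℝ≥0∞) < lam (A x.1 x.2) := by
    refine s1_measure_gt (P := fun x ζ => RP EU g ρ i x ζ)
      (a := fun x : List Bool × β => 2 ^ (encode x.2 + d) - 1)
      (b := fun x : List Bool × β => 2 ^ (encode x.2 + d)) (s1_RP hE hg ρ i) ?_ ?_ ?_
    · exact Primrec.nat_sub.comp (primrec_pow.comp (Primrec.const 2) (Primrec.nat_add.comp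
        (Primrec.encode.comp Primrec.snd) (Primrec.const d))) (Primrec.const 1)
    · exact primrec_pow.comp (Primrec.const 2) (Primrec.nat_add.comp
        (Primrec.encode.comp Primrec.snd) (Primrec.const d))
    · intro x; positivity
  have hthr : ∀ (N : ℕ) (V : Set (ℕ → Bool)), ((2 ^ N - 1 : ℕ) : ℝ≥0∞) / ((2 ^ N : ℕ) : ℝ≥0∞) < lam V →
      1 - (1 / 2) ^ N < lam.real V := by
    intro N V h
    have h1 := (ENNReal.toReal_lt_toReal (ne_top_of_lt h) (measure_ne_top lam V)).2 h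
    rw [ENNReal.toReal_div, ENNReal.toReal_natCast, ENNReal.toReal_natCast, two_pow_frac] at h1
    exact h1
  refine ⟨fun x => ((2 ^ (encode x.2 + d) - 1 : ℕ) : ℝ≥0∞) /
      ((2 ^ (encode x.2 + d) : ℕ) : ℝ≥0∞) < lam (A x.1 x.2), hS1, ?_, ?_⟩
  · intro x hx
    have hmono : Monotone fun s => A (pre zero s) x := by
      intro s s' hss Z hZ
      simp only [hAeq] at hZ ⊢
      rcases hZ with ⟨t, ht⟩ | hZ
      · exact Or.inl ⟨t, mEU _ _ _ _ _ (pre_prefix zero hss) (List.prefix_refl _) ht⟩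
      · exact Or.inr hZ
    have hfull : lam (⋃ s, A (pre zero s) x) = 1 := by
      have h0 : lam (⋃ s, A (pre zero s) x)ᶜ = 0 := by
        refine le_antisymm (le_trans (measure_mono ?_) (le_of_eq hi)) bot_le
        intro Z hZ
        simp only [Set.mem_compl_iff, Set.mem_iUnion, not_exists, hAeq, Set.mem_union,
          Set.mem_ofPred_eq, not_or, not_not] at hZ
        refine ⟨⟨(hZ 0).2.1, ?_⟩, ?_⟩
        · rw [UE_EVb]
          simp only [Set.mem_iUnion, exists_prop]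
          exact ⟨x, hx, (hZ 0).2.2⟩
        · rintro ⟨s, t, h⟩
          exact (hZ s).1 t h
      have h1 := prob_add_prob_compl (μ := lam) (s := ⋃ s, A (pre zero s) x)
        (MeasurableSet.iUnion fun s => hAm _ _)
      rwa [h0, add_zero] at h1
    rw [hmono.measure_iUnion] at hfull
    have hlt : ((2 ^ (encode x + d) - 1 : ℕ) : ℝ≥0∞) / ((2 ^ (encode x + d) : ℕ) : ℝ≥0∞) <
        ⨆ s, lam (A (pre zero s) x) := by
      rw [hfull, ENNReal.div_lt_iff (Or.inl (by positivity)) (Or.inl (ENNReal.natCast_ne_top _)),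
        one_mul]
      exact_mod_cast Nat.sub_lt (by positivity) Nat.one_pos
    exact lt_iSup_iff.1 hlt
  · obtain ⟨b, hb⟩ := exists_nat_gt (2 ^ i * (2 / lm))
    refine ⟨b, fun F hF => ?_⟩
    -- measure of the overlap
    have hover : ∀ x ∈ F, lam.real ((cyl ρ \ UE EU zero 1) ∩ Blk (Nat.pair (encode x) i) (g x + i)) ≤
        (1 / 2) ^ (encode x + d) := by
      intro x hx
      obtain ⟨s, hs⟩ := hF x hx
      have h1 := hthr _ _ hs
      simp only at h1
      have h2 : (cyl ρ \ UE EU zero 1) ∩ Blk (Nat.pair (encode x) i) (g x + i) ⊆ (A (pre zero s) x)ᶜ := by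
        rintro Z ⟨⟨h3, h4⟩, h5⟩ h6
        rw [hAeq] at h6
        rcases h6 with ⟨t, ht⟩ | h6
        · exact h4 ⟨s, t, ht⟩
        · exact h6 ⟨h3, h5⟩
      have h3 : lam.real (A (pre zero s) x)ᶜ = 1 - lam.real (A (pre zero s) x) :=
        probReal_compl_eq_one_sub (hAm _ _)
      have h4 := measureReal_mono h2 (μ := lam)
      rw [h3] at h4
      linarith
    obtain ⟨Q, hQ⟩ : ∃ Q : Set (ℕ → Bool), Q = (cyl ρ \ UE EU zero 1) \
        ⋃ x ∈ F, Blk (Nat.pair (encode x) i) (g x + i) := ⟨_, rfl⟩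
    have hQm : MeasurableSet Q := by
      rw [hQ]
      exact ((measurableSet_cyl ρ).diff (measurableSet_UE EU zero 1)).diff
        (Finset.measurableSet_biUnion _ fun x _ => measurableSet_Blk _ _)
    have hQl : lm / 2 ≤ lam.real Q := by
      have h1 : cyl ρ \ UE EU zero 1 ⊆ Q ∪ ⋃ x ∈ F, ((cyl ρ \ UE EU zero 1) ∩
          Blk (Nat.pair (encode x) i) (g x + i)) := by
        intro Z hZ
        by_cases h : ∃ x ∈ F, Z ∈ Blk (Nat.pair (encode x) i) (g x + i)
        · right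
          simp only [Set.mem_iUnion, exists_prop]
          obtain ⟨x, h3, h4⟩ := h
          exact ⟨x, h3, hZ, h4⟩
        · left
          rw [hQ]
          refine ⟨hZ, ?_⟩
          simpa using h
      have h2 := measureReal_mono h1 (μ := lam)
      have h3 := measureReal_union_le (μ := lam) Q (⋃ x ∈ F, ((cyl ρ \ UE EU zero 1) ∩
          Blk (Nat.pair (encode x) i) (g x + i)))
      have h4 : lam.real (⋃ x ∈ F, ((cyl ρ \ UE EU zero 1) ∩ Blk (Nat.pair (encode x) i) (g x + i))) ≤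
          ∑ x ∈ F, lam.real ((cyl ρ \ UE EU zero 1) ∩ Blk (Nat.pair (encode x) i) (g x + i)) :=
        measureReal_biUnion_finset_le _ _
      have h5 := Finset.sum_le_sum hover
      have h6 := sum_half_encode_le F d
      rw [← hlm] at h2
      linarith
    have hch := chebyshev lam F (fun x => Blk (Nat.pair (encode x) i) (g x + i))
      (fun x _ => measurableSet_Blk _ _) (fun x => (1 / 2) ^ (g x + i))
      (fun x _ => by rw [measureReal_def, lam_Blk, real_half_pow])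
      (fun x _ y _ hne => by
        rw [measureReal_def, lam_Blk_Blk, real_half_pow, pow_add]
        intro h
        exact hne (encode_injective (Nat.pair_eq_pair.1 h).1)) Q hQm
      (fun x hx => by
        rw [Set.disjoint_left, hQ]
        rintro Z ⟨_, h1⟩ h2
        apply h1
        simp only [Set.mem_iUnion, exists_prop]
        exact ⟨x, hx, h2⟩)
    have hsum : (∑ x ∈ F, (1 / 2 : ℝ) ^ (g x + i)) * (lm / 2) ≤ 1 := by
      refine le_trans (mul_le_mul_of_nonneg_left hQl ?_) hch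
      exact Finset.sum_nonneg fun x _ => by positivity
    have hsum2 : ∑ x ∈ F, (1 / 2 : ℝ) ^ (g x) ≤ 2 ^ i * (2 / lm) := by
      have h1 : ∑ x ∈ F, (1 / 2 : ℝ) ^ (g x) = 2 ^ i * ∑ x ∈ F, (1 / 2 : ℝ) ^ (g x + i) := by
        rw [Finset.mul_sum]
        refine Finset.sum_congr rfl fun x _ => ?_
        rw [pow_add, mul_comm, mul_assoc, ← mul_pow]
        norm_num
      rw [h1]
      refine mul_le_mul_of_nonneg_left ?_ (by positivity)
      rw [le_div_iff₀ hlm0]
      linarith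
    have hsum3 : ∑ x ∈ F, (1 / 2 : ℝ≥0∞) ^ (g x) = ENNReal.ofReal (∑ x ∈ F, (1 / 2 : ℝ) ^ (g x)) := by
      rw [ENNReal.ofReal_sum_of_nonneg (fun x _ => by positivity)]
      refine Finset.sum_congr rfl fun x _ => ?_
      rw [ENNReal.ofReal_pow (by norm_num), one_div, one_div, ENNReal.ofReal_inv_of_pos (by norm_num)]
      norm_num
    rw [hsum3]
    refine le_trans (ENNReal.ofReal_le_ofReal (le_trans hsum2 hb.le)) ?_
    rw [ENNReal.ofReal_natCast]

theorem ktrivial_of_ow {U : List Bool →. List Bool} (hU : IsUniversal U) {A : ℕ → Bool}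
    (hA : ∀ X, OWRandomIn zero X → MLR A X) : KTrivial U A := by
  classical
  let ES : List Bool × (List Bool × List Bool) → Prop := fun x =>
    List.replicate x.2.2.length false ∈ U x.2.1 ∧ x.1.take x.2.2.length = x.2.2
  have hES : S1 ES := by
    refine S1.and ((s1_output hU.1.1).comp
      (f := fun x : List Bool × (List Bool × List Bool) => (x.2.1, x.2.2.length)) ?_)
      (S1.of_prim ?_)
    · exact (Primrec.fst.comp Primrec.snd).pair
        (Primrec.list_length.comp (Primrec.snd.comp Primrec.snd))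
    · exact Primrec.eq.comp (Primrec.list_take.comp
        (Primrec.list_length.comp (Primrec.snd.comp Primrec.snd)) Primrec.fst)
        (Primrec.snd.comp Primrec.snd)
  have hkey : ∀ (x : List Bool × List Bool) s, ES (pre A s, x) → x.2 = pre A x.2.length := by
    rintro x s ⟨-, h⟩
    simp only at h
    refine pre_eq_of_prefix (n := s) ?_
    rw [← h]
    exact List.take_prefix _ _
  obtain ⟨R, hR, hcov, b, hb⟩ := coverOW (β := List Bool × List Bool) hA
    (g := fun x => x.1.length) (Primrec.list_length.comp Primrec.fst) hES (by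
      intro F hF
      have h1 : ∑ x ∈ F, (1 / 2 : ℝ≥0∞) ^ x.1.length =
          ∑ τ ∈ F.image Prod.fst, (1 / 2 : ℝ≥0∞) ^ τ.length := by
        rw [Finset.sum_image]
        rintro ⟨τ, σ⟩ h3 ⟨τ', σ'⟩ h4 h5
        simp only at h5
        subst h5
        obtain ⟨s, h6⟩ := hF _ h3
        obtain ⟨s', h7⟩ := hF _ h4
        have h8 := congrArg List.length (Part.mem_unique h6.1 h7.1)
        simp only [List.length_replicate] at h8
        have h9 := hkey _ _ h6
        have h10 := hkey _ _ h7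
        simp only at h9 h10
        rw [h9, h10, h8]
      rw [h1]
      refine kraft (P := fun τ => (U τ).Dom) hU.1.2 _ ?_
      intro τ hτ
      rw [Finset.mem_image] at hτ
      obtain ⟨x, hx, rfl⟩ := hτ
      obtain ⟨s, h6⟩ := hF _ hx
      exact Part.dom_iff_mem.2 ⟨_, h6.1⟩)
  have hR' : S1 fun x : List Bool × List Bool => ∃ s, R (pre zero s, x) := by
    refine S1.ex (hR.comp (f := fun y : (List Bool × List Bool) × ℕ => (pre zero y.2, y.1)) ?_)
    refine Primrec.pair ?_ Primrec.fst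
    exact Primrec.list_map (Primrec.list_range.comp Primrec.snd) (Primrec.const false)
  obtain ⟨c, hc⟩ := kc_s1 hR' (g := fun x => x.1.length) (Primrec.list_length.comp Primrec.fst)
    (out := fun x => x.2) Primrec.snd hb hU
  refine ⟨c, fun n => ?_⟩
  obtain ⟨τ, h1, h2⟩ := hU.exists_min (List.replicate n false)
  have h3 := hc (τ, pre A n) (hcov _ ⟨n, by simpa [ES] using h2, by simp⟩)
  simp only at h3
  rw [← h1]
  exact h3

/-- Sets that are low for Oberwolfach randomness are K-trivial. -/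
theorem ktrivial_of_lowOW {U : List Bool →. List Bool} (hU : IsUniversal U) {A : ℕ → Bool}
    (h : LowOW A) : KTrivial U A :=
  ktrivial_of_ow hU fun X hX => mlr_of_ow (h X hX)

end Pool.Agent.H101Z.OW
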